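import Mathlib
import Pool.Agent.Helper669.Forcing

/-!
# Forcing notions with the countable chain condition: antichains and the continuum
-/

set_option autoImplicit false

namespace Pool.Agent.Q307.CF

open Cardinal Pool.Agent.Helper669.Forcing

universe u v

variable {P : Type u} [Preorder P]

/-- compatibility of conditions -/
def Cp (p q : P) : Prop := ∃ r, r ≤ p ∧ r ≤ q

theorem Cp.symm {p q : P} (h : Cp p q) : Cp q p := by
  obtain ⟨r, h1, h2⟩ := h
  exact ⟨r, h2, h1⟩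

/-- the countable chain condition -/
def CCC (P : Type u) [Preorder P] : Prop :=
  ∀ A : Set P, (∀ a ∈ A, ∀ b ∈ A, Cp a b → a = b) → A.Countable

theorem CCC.family (hcc : CCC P) {ι : Type v} (f : ι → P) (hι : ¬ Countable ι) :
    ∃ i j, i ≠ j ∧ ∃ r, r ≤ f i ∧ r ≤ f j := by
  by_contra hcon
  push Not at hcon
  have hinj : Function.Injective f := by
    intro i j h
    by_contra hne
    exact hcon i j hne (f i) le_rfl (by rw [h])
  have h1 : (Set.range f).Countable := by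
    apply hcc
    rintro _ ⟨i, rfl⟩ _ ⟨j, rfl⟩ ⟨r, h1, h2⟩
    by_contra hne
    exact hcon i j (fun h => hne (by rw [h])) r h1 h2
  exact hι (Set.countable_univ_iff.1 (Set.countable_of_injective_of_countable_image
    (f := f) (s := Set.univ) hinj.injOn (by rwa [Set.image_univ])))

theorem CCC.compat_same (hcc : CCC P) {X Z : Type v} (h : #Z * ℵ₀ < #X) (f : X → P)
    (z : X → Z) : ∃ x x', x ≠ x' ∧ z x = z x' ∧ ∃ s, s ≤ f x ∧ s ≤ f x' := by
  have h1 : ∃ c, ¬ Countable {x // z x = c} := by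
    by_contra hcon
    push Not at hcon
    have h2 : #X = Cardinal.sum fun c => #{x // z x = c} := by
      rw [← mk_sigma]
      exact (Equiv.sigmaFiberEquiv z).symm.cardinal_eq
    have h3 : #X ≤ #Z * ℵ₀ := by
      rw [h2]
      refine (Cardinal.sum_le_sum _ (fun _ => ℵ₀) fun c => ?_).trans ?_
      · have := hcon c
        exact mk_le_aleph0
      · rw [Cardinal.sum_const']
    exact absurd h3 (not_le.2 h)
  obtain ⟨c, hc⟩ := h1
  obtain ⟨y, y', hne, hcomp⟩ := hcc.family (fun x : {x // z x = c} => f x.1) hc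
  exact ⟨y.1, y'.1, fun h => hne (Subtype.ext h), y.2.trans y'.2.symm, hcomp⟩

theorem CCC.cardinalsPreserved (hcc : CCC P) (p : P) : p ∈ CardinalsPreserved.{u, v} P := by
  intro μ ν hμν hν q _ hq
  obtain ⟨r, _, R, hR1, hR2⟩ := mem_fex.1 hq q le_rfl
  have h1 : ∀ y : ν.out, ∃ s ≤ r, ∃ x : μ.out, s ∈ meets (R x y) := fun y =>
    mem_fex.1 (hR2 y) r le_rfl
  choose f hf x hx using h1
  obtain ⟨y, y', hne, hz, s, hs1, hs2⟩ := hcc.compat_same (X := ν.out) (Z := μ.out) (by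
    rw [mk_out, mk_out]
    exact mul_lt_of_lt hν.le hμν hν) f x
  apply hne
  refine IsFun.unique (down_IsFun R r hR1 s (hs1.trans (hf y))) (down_meets _ _ (hx y) s hs1) ?_
  rw [hz]
  exact down_meets _ _ (hx y') s hs2

/-- A named set which is included in a small ground model set does not have full size. -/
theorem CCC.not_fullSize (hcc : CCC P) {X : Type v} (hX : ℵ₀ < #X) {S : Set X} (hS : #S < #X)
    {φ : X → Set P} {p : P} (h : ∀ y, y ∉ S → p ∈ fnot (φ y)) : p ∈ fnot (FullSize φ) := by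
  intro q hq hfull
  obtain ⟨r, hr, R, hfun, hinj, hval⟩ := mem_fex.1 hfull q le_rfl
  have h1 : ∀ x, ∃ s ≤ r, ∃ y : S, s ∈ meets (R x y.1) := by
    intro x
    obtain ⟨s, hs, y, hy⟩ := mem_fex.1 (hfun.1 x) r le_rfl
    obtain ⟨t, ht, hty⟩ := mem_fimp.1 (hval x y) s hs hy
    by_cases hyS : y ∈ S
    · exact ⟨s, hs, ⟨y, hyS⟩, hy⟩
    · exact absurd hty (h y hyS t (ht.trans (hs.trans (hr.trans hq))))
  choose f hf y hy using h1
  obtain ⟨x, x', hne, hz, s, hs1, hs2⟩ := hcc.compat_same (X := X) (Z := S)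
    (mul_lt_of_lt hX.le hS hX) f y
  apply hne
  refine IsInj.eq (y := (y x).1) (down_IsInj R r hinj s (hs1.trans (hf x)))
    (down_meets _ _ (hy x) s hs1) ?_
  rw [hz]
  exact down_meets _ _ (hy x') s hs2

theorem exists_antichain (hcc : CCC P) (D : Set P) (hD : ∀ p, ∃ q ≤ p, q ∈ D) :
    ∃ A ⊆ D, A.Countable ∧ (∀ p, ∃ a ∈ A, Cp a p) ∧ ∀ a ∈ A, ∀ b ∈ A, Cp a b → a = b := by
  obtain ⟨A, hA⟩ := zorn_subset {A : Set P | A ⊆ D ∧ ∀ a ∈ A, ∀ b ∈ A, Cp a b → a = b} (by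
    intro c hc hchain
    refine ⟨⋃₀ c, ⟨Set.sUnion_subset fun A hA => (hc hA).1, ?_⟩, fun A hA =>
      Set.subset_sUnion_of_mem hA⟩
    rintro a ⟨A, hA, ha⟩ b ⟨B, hB, hb⟩ hab
    rcases hchain.total hA hB with h | h
    · exact (hc hB).2 a (h ha) b hb hab
    · exact (hc hA).2 a ha b (h hb) hab)
  refine ⟨A, hA.1.1, hcc A hA.1.2, fun p => ?_, hA.1.2⟩
  by_contra hcon
  push Not at hcon
  obtain ⟨q, hq, hqD⟩ := hD p
  have hqA : ∀ a ∈ A, ¬ Cp a q := by
    rintro a ha ⟨r, h1, h2⟩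
    exact hcon a ha ⟨r, h1, h2.trans hq⟩
  have h1 : insert q A ⊆ A := by
    refine hA.2 ⟨Set.insert_subset hqD hA.1.1, ?_⟩ (Set.subset_insert q A)
    rintro a ha b hb hab
    rcases ha with rfl | ha <;> rcases hb with rfl | hb
    · rfl
    · exact absurd hab.symm (hqA b hb)
    · exact absurd hab (hqA a ha)
    · exact hA.1.2 a ha b hb hab
  exact hqA q (h1 (Set.mem_insert q A)) ⟨q, le_rfl, le_rfl⟩

/-- a countable name -/
def nm (c : ℕ → ℕ → Option (P × ℕ)) (n m : ℕ) : Set P := {q | ∃ j, c n j = some (q, m)}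

theorem exists_nm [Nonempty P] (hcc : CCC P) (x : ℕ → ℕ → Set P) :
    ∃ c, (∀ p, p ∈ IsFun (nm c)) ∧ ∀ p ∈ IsFun x, p ∈ SameReal x (nm c) := by
  classical
  have hD : ∀ n, ∃ A ⊆ {q : P | (∃ m, q ∈ meets (x n m) ∧ q ∈ IsFun x) ∨
      q ∈ fnot (IsFun x)}, A.Countable ∧ (∀ p, ∃ a ∈ A, Cp a p) ∧
      ∀ a ∈ A, ∀ b ∈ A, Cp a b → a = b := by
    intro n
    apply exists_antichain hcc
    intro q
    by_cases hq : q ∈ fnot (IsFun x)
    · exact ⟨q, le_rfl, Or.inr hq⟩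
    · simp only [fnot, Set.mem_ofPred_eq, not_forall, not_not] at hq
      obtain ⟨q', hq', hfun⟩ := hq
      obtain ⟨q'', hq'', m, hm⟩ := IsFun.total hfun n
      exact ⟨q'', hq''.trans hq', Or.inl ⟨m, hm, down_IsFun x _ hfun _ hq''⟩⟩
  choose A hAD hAc hApre hAanti using hD
  have hval : ∀ n, ∀ a : P, ∃ m, a ∈ A n → (a ∈ meets (x n m) ∨ a ∈ fnot (IsFun x)) := by
    intro n a
    by_cases ha : a ∈ A n
    · rcases hAD n ha with ⟨m, h1, _⟩ | h
      · exact ⟨m, fun _ => Or.inl h1⟩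
      · exact ⟨0, fun _ => Or.inr h⟩
    · exact ⟨0, fun h => absurd h ha⟩
  choose v hv using hval
  have hcode : ∀ n, ∃ g : ℕ → Option (P × ℕ), ∀ q m, (∃ j, g j = some (q, m)) ↔
      (q ∈ A n ∧ v n q = m) := by
    intro n
    obtain ⟨a₀, ha₀, _⟩ := hApre n (Classical.arbitrary _)
    have : Nonempty (A n) := ⟨⟨a₀, ha₀⟩⟩
    have hc : Countable (A n) := hAc n
    obtain ⟨g, hg⟩ := exists_surjective_nat (A n)
    refine ⟨fun j => some ((g j).1, v n (g j).1), fun q m => ?_⟩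
    constructor
    · rintro ⟨j, hj⟩
      simp only [Option.some.injEq, Prod.mk.injEq] at hj
      obtain ⟨rfl, rfl⟩ := hj
      exact ⟨(g j).2, rfl⟩
    · rintro ⟨hq, rfl⟩
      obtain ⟨j, hj⟩ := hg ⟨q, hq⟩
      exact ⟨j, by simp [hj]⟩
  choose c hc using hcode
  have hmem : ∀ n m q, q ∈ nm c n m ↔ (q ∈ A n ∧ v n q = m) := fun n m q => hc n q m
  refine ⟨c, fun p => ⟨fun n => mem_fex.2 fun q _ => ?_, fun n m m' => mem_fimp.2 fun q _ h => ?_⟩,
    fun p hp n a b => mem_fimp.2 fun q hq h => ?_⟩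
  · obtain ⟨a, ha, s, hs1, hs2⟩ := hApre n q
    exact ⟨s, hs2, v n a, meets_of_le ((hmem n _ a).2 ⟨ha, rfl⟩) hs1⟩
  · obtain ⟨r, hr, a, ha, hra⟩ := h.1 q le_rfl
    obtain ⟨r', hr', a', ha', hra'⟩ := h.2 r hr
    obtain ⟨ha1, rfl⟩ := (hmem n _ a).1 ha
    obtain ⟨ha2, rfl⟩ := (hmem n _ a').1 ha'
    have : a = a' := hAanti n a ha1 a' ha2 ⟨r', hr'.trans hra, hra'⟩
    exact ⟨q, le_rfl, by rw [this]; rfl⟩
  · obtain ⟨r, hr, s, hs, hrs⟩ := h.2 q le_rfl
    obtain ⟨hs1, rfl⟩ := (hmem n _ s).1 hs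
    have hfun : r ∈ IsFun x := down_IsFun x p hp r (hr.trans hq)
    rcases hv n s hs1 with h1 | h1
    · exact ⟨r, hr, IsFun.unique hfun (down_meets _ _ h.1 r hr) (down_meets _ _ h1 r hrs)⟩
    · exact absurd hfun (h1 r hrs)

theorem CCC.continuumLe [Nonempty P] (hcc : CCC P) {κ : Cardinal.{u}} (hκ : ℵ₀ ≤ κ)
    (hP : #P ≤ κ) (hpow : κ ^ ℵ₀ = κ) (p : P) : p ∈ ContinuumLe P κ.out := by
  classical
  let N := {c : ℕ → ℕ → Option (P × ℕ) // ∀ p, p ∈ IsFun (nm c)}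
  have hN : #N ≤ κ := by
    refine (mk_subtype_le _).trans ?_
    have h2 : ∀ X : Type u, #X ≤ κ → #(ℕ → X) ≤ κ := by
      intro X hX
      have : #(ℕ → X) = #X ^ ℵ₀ := by
        simp [mk_pi]
      rw [this]
      exact (power_le_power_right hX).trans hpow.le
    refine h2 _ (h2 _ ?_)
    rw [mk_option, mk_prod]
    simp only [lift_uzero, mk_nat, lift_aleph0]
    exact (add_le_add ((mul_le_mul' hP hκ).trans (mul_eq_self hκ).le)
      (one_le_aleph0.trans hκ)).trans (add_eq_self hκ).le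
  have hne : Nonempty N := by
    obtain ⟨c, hc, _⟩ := exists_nm hcc fun _ _ => (∅ : Set P)
    exact ⟨⟨c, hc⟩⟩
  obtain ⟨g⟩ : Nonempty (N ↪ κ.out) := Cardinal.le_def _ _ |>.1 (by rw [mk_out]; exact hN)
  have hsurj : Function.Surjective (Function.invFun g) := Function.invFun_surjective g.injective
  refine mem_fex_of_mem (fun i => nm (Function.invFun g i).1) ?_ ?_
  · exact down_fand (down_fall fun _ => down_IsFun _) (down_fall fun _ => down_fimp _ _)
  · refine ⟨fun i => (Function.invFun g i).2 p, fun x => mem_fimp.2 fun q _ hq => ?_⟩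
    obtain ⟨c, hc1, hc2⟩ := exists_nm hcc x
    obtain ⟨i, hi⟩ := hsurj ⟨c, hc1⟩
    refine ⟨q, le_rfl, mem_fex_of_mem i (down_SameReal _ _) ?_⟩
    have h2 : q ∈ SameReal x (nm (Function.invFun g i).1) := by
      rw [show (Function.invFun g i).1 = c from congrArg Subtype.val hi]
      exact hc2 q hq
    exact h2

/-- `meets` is closed under density -/
theorem meets_of_dense {N : Set P} {p : P} (h : ∀ q ≤ p, ∃ r ≤ q, r ∈ meets N) : p ∈ meets N := by
  intro q hq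
  obtain ⟨r, hr, hrm⟩ := h q hq
  obtain ⟨r', hr', s, hs, hle⟩ := hrm r le_rfl
  exact ⟨r', hr'.trans hr, s, hs, hle⟩

theorem initSeg_of_same {x y : ℕ → ℕ → Set P} {p : P} (hy : p ∈ IsFun y) (h : p ∈ SameReal x y)
    {s : List ℕ} (hs : p ∈ InitSeg s x) : p ∈ InitSeg s y := by
  intro i hi
  refine meets_of_dense fun q hq => ?_
  obtain ⟨r, hr, b, hb⟩ := IsFun.total (down_IsFun _ _ hy q hq) i
  refine ⟨r, hr, ?_⟩
  have h1 : r ∈ meets (x i (s.getD i 0)) := down_meets _ _ (hs i hi) r (hr.trans hq)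
  rw [SameReal.eq (down_SameReal _ _ _ h r (hr.trans hq)) h1 hb]
  exact hb

/-- the singletons are a cover by meager sets -/
theorem covLe_of_continuumLe {Y : Type v} {p : P} (h : p ∈ ContinuumLe P Y) : p ∈ CovLe P Y := by
  refine mem_fex.2 fun q hq => ?_
  obtain ⟨r, hr, E, hE1, hE2⟩ := mem_fex.1 h q hq
  refine ⟨r, hr, fun y _ s => InitSeg s (E y), fun y k s => ?_, fun x => mem_fimp.2 fun t ht hx => ?_⟩
  · -- nowhere dense
    refine mem_fex.2 fun t ht => ?_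
    obtain ⟨t', ht', m, hm⟩ := IsFun.total (down_IsFun _ _ (hE1 y) t ht) s.length
    refine ⟨t', ht', s ++ [m + 1], List.prefix_append _ _, fun w hw hwm => ?_⟩
    obtain ⟨w', hw', hwi⟩ := exists_of_meets (down_InitSeg _ _) hwm
    have h1 := hwi s.length (by simp)
    have h2 : (s ++ [m + 1]).getD s.length 0 = m + 1 := by simp
    rw [h2] at h1
    have h3 : w' ∈ IsFun (E y) := down_IsFun _ _ (hE1 y) w' (hw'.trans (hw.trans (ht'.trans ht)))
    have h4 := IsFun.unique h3 h1 (down_meets _ _ hm w' (hw'.trans hw))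
    omega
  · obtain ⟨t1, ht1, h1⟩ := mem_fimp.1 (hE2 x) t ht hx
    refine ⟨t1, ht1, mem_fex.2 fun w hw => ?_⟩
    obtain ⟨w', hw', y, hy⟩ := mem_fex.1 h1 w hw
    refine ⟨w', hw', y, mem_fex_of_mem 0 (down_fall fun _ => down_fimp _ _) ?_⟩
    intro s
    refine mem_fimp.2 fun v hv hvs => ⟨v, le_rfl, meets_of_mem ?_⟩
    refine initSeg_of_same (down_IsFun _ _ (hE1 y) v ?_) (down_SameReal _ _ _ hy v hv) hvs
    exact (((hv.trans hw').trans hw).trans ht1).trans ht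

end Pool.Agent.Q307.CF
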