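import Mathlib
import Pool.Agent.Q307.CF.Gen

/-!
# Cohen forcing: finite partial functions from an index set to `ℕ`
-/

set_option autoImplicit false

namespace Pool.Agent.Q307.CF

open Cardinal Pool.Agent.Helper669.Forcing MeasureTheory

/-- A finite partial function from `A` to `ℕ`. -/
structure Co (A : Type) where
  /-- the value at `a`, or `none` if the function is not defined at `a` -/
  f : A → Option ℕ
  fin : {a | f a ≠ none}.Finite

/-- `p ≤ q` iff `p` extends `q`. -/
instance (A : Type) : Preorder (Co A) where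
  le p q := ∀ a v, q.f a = some v → p.f a = some v
  le_refl _ _ _ h := h
  le_trans _ _ _ h h' a v hv := h a v (h' a v hv)

variable {A : Type}

theorem Co.le_iff {p q : Co A} : p ≤ q ↔ ∀ a v, q.f a = some v → p.f a = some v := Iff.rfl

/-- the empty condition -/
def Co.emp (A : Type) : Co A := ⟨fun _ => none, by simp⟩

instance : Nonempty (Co A) := ⟨Co.emp A⟩

/-- The union of `p` and `q`; where both are defined, the value of `p` is taken. -/
def Co.glue (p q : Co A) : Co A where
  f a := (p.f a).or (q.f a)
  fin := by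
    refine (p.fin.union q.fin).subset ?_
    intro a ha
    by_contra hcon
    rw [Set.mem_union, not_or] at hcon
    simp only [Set.mem_ofPred_eq, not_not] at hcon
    simp [hcon.1, hcon.2] at ha

theorem Co.glue_le_left (p q : Co A) : p.glue q ≤ p := by
  intro a v h
  simp [Co.glue, h]

theorem Co.glue_le_right {p q : Co A}
    (h : ∀ a v w, p.f a = some v → q.f a = some w → v = w) : p.glue q ≤ q := by
  intro a w hw
  cases hp : p.f a with
  | none => simp [Co.glue, hp, hw]
  | some v => simp [Co.glue, hp, h a v w hp hw]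

theorem Co.cp_iff {p q : Co A} :
    Cp p q ↔ ∀ a v w, p.f a = some v → q.f a = some w → v = w := by
  constructor
  · rintro ⟨r, h1, h2⟩ a v w hv hw
    have e1 := h1 a v hv
    have e2 := h2 a w hw
    rw [e1] at e2
    exact Option.some.inj e2
  · intro h
    exact ⟨p.glue q, Co.glue_le_left _ _, Co.glue_le_right h⟩

open Classical in
/-- The restriction of `p` to `C`. -/
noncomputable def Co.res (p : Co A) (C : Set A) : Co A where
  f a := if a ∈ C then p.f a else none
  fin := by
    refine p.fin.subset ?_
    intro a ha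
    by_cases h : a ∈ C
    · simpa [h] using ha
    · simp [h] at ha

theorem Co.le_res (p : Co A) (C : Set A) : p ≤ p.res C := by
  intro a v h
  by_cases ha : a ∈ C
  · simpa [Co.res, ha] using h
  · simp [Co.res, ha] at h

theorem Co.res_f {p : Co A} {C : Set A} {a : A} (ha : a ∈ C) : (p.res C).f a = p.f a := by
  simp [Co.res, ha]

theorem Co.res_f_not {p : Co A} {C : Set A} {a : A} (ha : a ∉ C) : (p.res C).f a = none := by
  simp [Co.res, ha]

open Classical in
/-- The condition `p` extended by the value `v` at `a`. -/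
noncomputable def Co.ext (p : Co A) (a : A) (v : ℕ) : Co A where
  f b := if b = a then some v else p.f b
  fin := by
    refine (p.fin.insert a).subset ?_
    intro b hb
    by_cases h : b = a
    · exact Or.inl h
    · exact Or.inr (by simpa [h] using hb)

theorem Co.ext_le {p : Co A} {a : A} {v : ℕ} (h : p.f a = none ∨ p.f a = some v) :
    p.ext a v ≤ p := by
  intro b w hw
  by_cases hb : b = a
  · subst hb
    rcases h with h | h
    · rw [h] at hw
      exact absurd hw (by simp)
    · rw [h] at hw
      simpa [Co.ext] using hw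
  · simpa [Co.ext, hb] using hw

theorem Co.ext_self (p : Co A) (a : A) (v : ℕ) : (p.ext a v).f a = some v := by
  simp [Co.ext]

theorem Co.ext_ne (p : Co A) {a b : A} (v : ℕ) (h : b ≠ a) : (p.ext a v).f b = p.f b := by
  simp [Co.ext, h]

/-! ### The countable chain condition -/

/-- a probability measure on `ℕ` which gives positive measure to every point -/
noncomputable def geo : Measure ℕ := Measure.sum fun n => (2 : ENNReal)⁻¹ ^ (n + 1) • Measure.dirac n

theorem geo_singleton (n : ℕ) : (2 : ENNReal)⁻¹ ^ (n + 1) ≤ geo {n} := by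
  unfold geo
  refine le_trans ?_ (Measure.le_sum_apply _ _)
  refine le_trans ?_ (ENNReal.le_tsum n)
  simp

instance : IsProbabilityMeasure geo := by
  constructor
  unfold geo
  rw [Measure.sum_apply _ MeasurableSet.univ]
  simp only [Measure.smul_apply, measure_univ, smul_eq_mul, mul_one]
  rw [ENNReal.tsum_geometric_add_one]
  have h : (1 : ENNReal) - 2⁻¹ = 2⁻¹ := ENNReal.one_sub_inv_two
  rw [h, inv_inv]
  exact ENNReal.inv_mul_cancel (by simp) (by simp)

/-- the set of the total functions which extend `p` -/
def Co.cone (p : Co A) : Set (A → ℕ) := {x | ∀ a v, p.f a = some v → x a = v}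

theorem Co.cone_eq (p : Co A) : p.cone = Set.pi (↑p.fin.toFinset) fun a => {(p.f a).getD 0} := by
  ext x
  simp only [Co.cone, Set.mem_ofPred_eq, Set.mem_pi, Set.Finite.coe_toFinset, Set.mem_singleton_iff]
  constructor
  · intro h a ha
    cases hp : p.f a with
    | none => exact absurd hp ha
    | some v => simpa using h a v hp
  · intro h a v hv
    have := h a (by rw [hv]; simp)
    simpa [hv] using this

theorem Co.cone_pos (p : Co A) : 0 < Measure.infinitePi (fun _ : A => geo) p.cone := by
  rw [Co.cone_eq, Measure.infinitePi_pi _ fun _ _ => measurableSet_singleton _]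
  refine pos_iff_ne_zero.2 (Finset.prod_ne_zero_iff.2 fun a _ => ?_)
  refine ne_of_gt (lt_of_lt_of_le ?_ (geo_singleton _))
  exact ENNReal.pow_pos (ENNReal.inv_pos.2 (by simp)) _

theorem Co.cone_meas (p : Co A) : MeasurableSet p.cone := by
  rw [Co.cone_eq]
  exact MeasurableSet.pi (Finset.countable_toSet _) fun _ _ => measurableSet_singleton _

theorem Co.ccc : CCC (Co A) := by
  intro S hS
  have h1 : Set.Countable {i : S | 0 < Measure.infinitePi (fun _ : A => geo) (i.1.cone)} := by
    refine Measure.countable_meas_pos_of_disjoint_iUnion (fun i => i.1.cone_meas) ?_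
    intro i j hij
    refine Set.disjoint_left.2 fun x hx hx' => hij (Subtype.ext (hS i.1 i.2 j.1 j.2 ?_))
    rw [Co.cp_iff]
    intro a v w hv hw
    rw [← hx a v hv, hx' a w hw]
  have h2 : {i : S | 0 < Measure.infinitePi (fun _ : A => geo) (i.1.cone)} = Set.univ := by
    ext i
    simp only [Set.mem_ofPred_eq, Set.mem_univ, iff_true]
    exact i.1.cone_pos
  rw [h2] at h1
  exact Set.countable_coe_iff.1 (Set.countable_univ_iff.1 h1)

theorem Co.mk_le : #(Co A) ≤ max #A ℵ₀ := by
  classical
  have h1 : #(Co A) ≤ #(Finset (A × ℕ)) := by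
    refine Cardinal.mk_le_of_injective (f := fun p : Co A =>
      p.fin.toFinset.image fun a => (a, (p.f a).getD 0)) ?_
    intro p q h
    have key : ∀ p q : Co A, (p.fin.toFinset.image fun a => (a, (p.f a).getD 0)) =
        (q.fin.toFinset.image fun a => (a, (q.f a).getD 0)) → ∀ a v, p.f a = some v →
          q.f a = some v := by
      intro p q h a v hv
      have h2 : (a, v) ∈ (p.fin.toFinset.image fun a => (a, (p.f a).getD 0)) := by
        refine Finset.mem_image.2 ⟨a, ?_, by simp [hv]⟩
        rw [Set.Finite.mem_toFinset]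
        simp [hv]
      rw [h] at h2
      obtain ⟨b, hb, hbe⟩ := Finset.mem_image.1 h2
      rw [Set.Finite.mem_toFinset] at hb
      simp only [Prod.mk.injEq] at hbe
      obtain ⟨rfl, hv'⟩ := hbe
      cases hq : q.f b with
      | none => exact absurd hq hb
      | some w => rw [hq] at hv'; simpa using hv'
    have h3 : p.f = q.f := by
      funext a
      cases hp : p.f a with
      | none =>
        cases hq : q.f a with
        | none => rfl
        | some w =>
          have := key q p h.symm a w hq
          rw [hp] at this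
          exact this
      | some v => exact (key p q h a v hp).symm
    cases p
    cases q
    simp only at h3
    subst h3
    rfl
  refine h1.trans ?_
  rcases finite_or_infinite (A × ℕ) with h | h
  · exact (Cardinal.lt_aleph0_of_finite (Finset (A × ℕ))).le.trans (le_max_right _ _)
  · rw [Cardinal.mk_finset_of_infinite, Cardinal.mk_prod]
    simp only [Cardinal.lift_uzero, Cardinal.mk_nat, Cardinal.lift_id]
    exact Cardinal.mul_le_max_of_aleph0_le_right le_rfl

/-! ### Supports -/

/-- The name `N` is supported by `C`. -/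
def Sup (C : Set A) (N : Set (Co A)) : Prop :=
  (∀ p ∈ meets N, p.res C ∈ meets N) ∧ ∀ p ∈ fnot (meets N), p.res C ∈ fnot (meets N)

/-- Every condition can be extended to one which decides whether the generic filter meets `N`. -/
theorem exists_decide {P : Type} [Preorder P] (N : Set P) (p : P) :
    ∃ q ≤ p, q ∈ meets N ∨ q ∈ fnot (meets N) := by
  by_cases h : p ∈ fnot (meets N)
  · exact ⟨p, le_rfl, Or.inr h⟩
  · simp only [fnot, Set.mem_ofPred_eq, not_forall, not_not] at h
    obtain ⟨q, hq, hm⟩ := h
    exact ⟨q, hq, Or.inl hm⟩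

theorem exists_sup (N : Set (Co A)) : ∃ C : Set A, C.Countable ∧ ∀ C', C ⊆ C' → Sup C' N := by
  obtain ⟨S, hS, hSc, hpre, -⟩ := exists_antichain Co.ccc
    {q : Co A | q ∈ meets N ∨ q ∈ fnot (meets N)} (exists_decide N)
  refine ⟨⋃ q ∈ S, {a | q.f a ≠ none}, hSc.biUnion fun q _ => q.fin.countable, ?_⟩
  intro C' hC
  have key : ∀ p s : Co A, s ≤ p.res C' → ∃ a ∈ S, ∃ u, u ≤ s ∧ u ≤ a ∧ ∃ v, v ≤ a ∧ v ≤ p := by
    intro p s hs
    obtain ⟨a, ha, u, hua, hus⟩ := hpre s
    refine ⟨a, ha, u, hus, hua, ?_⟩
    have h1 : u.res C' ≤ a := by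
      intro b w hw
      have hb : b ∈ C' := hC (Set.mem_biUnion ha (by
        show a.f b ≠ none
        rw [hw]
        simp))
      rw [Co.res_f hb]
      exact hua b w hw
    have h2 : Cp (u.res C') p := by
      rw [Co.cp_iff]
      intro b w w' hw hw'
      by_cases hb : b ∈ C'
      · rw [Co.res_f hb] at hw
        have h3 := hus.trans hs b w' (by rw [Co.res_f hb]; exact hw')
        rw [hw] at h3
        exact Option.some.inj h3
      · rw [Co.res_f_not hb] at hw
        exact absurd hw (by simp)
    obtain ⟨v, hv1, hv2⟩ := h2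
    exact ⟨v, hv1.trans h1, hv2⟩
  constructor
  · intro p hp
    refine meets_of_dense fun s hs => ?_
    obtain ⟨a, ha, u, hus, hua, v, hva, hvp⟩ := key p s hs
    rcases hS ha with h | h
    · exact ⟨u, hus, down_meets _ _ h u hua⟩
    · exact absurd (down_meets _ _ hp v hvp) (h v hva)
  · intro p hp s hs hsm
    obtain ⟨a, ha, u, hus, hua, v, hva, hvp⟩ := key p s hs
    rcases hS ha with h | h
    · exact hp v hvp (down_meets _ _ h v hva)
    · exact h u hua (down_meets _ _ hsm u hus)

/-- The named real `E` is generic: every condition can be extended to one which decides an initial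
segment of `E` and no more, as far as the coordinates in `B` are concerned. -/
def Gnr (B : Set A) (E : ℕ → ℕ → Set (Co A)) : Prop :=
  ∀ r : Co A, ∃ r1 ≤ r, ∃ s : List ℕ, r1 ∈ InitSeg s E ∧
    ∀ r3 ≤ r1, (∀ a ∈ B, r1.f a = none → r3.f a = none) → ∀ t, s <+: t →
      ∃ r4 ≤ r3, r4 ∈ InitSeg t E

/-- A generic real avoids every meager set whose code does not depend on the coordinates of the
real. -/
theorem avoid {B : Set A} {E : ℕ → ℕ → Set (Co A)} (hE : Gnr B E) {T : ℕ → List ℕ → Set (Co A)}
    {C : Set A} (hC : ∀ k s, Sup C (T k s)) (hBC : ∀ a ∈ B, a ∉ C) {p : Co A}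
    (hp : p ∈ IsMeagerCode T) : p ∈ fnot (InMeager E T) := by
  intro q hq hin
  obtain ⟨r, hr, k, hk⟩ := mem_fex.1 hin q le_rfl
  obtain ⟨r1, hr1, s, hs, hext⟩ := hE r
  obtain ⟨r2, hr2, t, hst, ht⟩ := mem_fex.1 (hp k s) r1 (hr1.trans (hr.trans hq))
  have ht' := (hC k t).2 r2 ht
  have hcomp : ∀ a v w, (r2.res C).f a = some v → r1.f a = some w → v = w := by
    intro a v w hv hw
    have h1 := r2.le_res C a v hv
    have h2 := hr2 a w hw
    rw [h1] at h2
    exact Option.some.inj h2
  have h3 : (r2.res C).glue r1 ≤ r1 := Co.glue_le_right hcomp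
  obtain ⟨r4, hr4, h4⟩ := hext _ h3 (by
    intro a ha hn
    simp only [Co.glue, hn, Co.res_f_not (hBC a ha)]
    rfl) t hst
  obtain ⟨r5, hr5, h5⟩ := mem_fimp.1 (hk t) r4 ((hr4.trans h3).trans hr1) h4
  exact ht' r5 (hr5.trans (hr4.trans (Co.glue_le_left _ _))) h5

end Pool.Agent.Q307.CF
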